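import Pool.Agent.H174.GP.StI

/-!
# Exponent `1/4` of the integrated Gaussian walk, upper bound
-/

open MeasureTheory ProbabilityTheory Finset Filter Topology

namespace Pool.Agent.H972.GP174.quart

open Pool.Agent.H174.GP

theorem aG_anti {m n : ℕ} (h : m ≤ n) : aG n ≤ aG m := by
  unfold aG
  refine measureReal_mono (fun z hz j hj => hz j ?_) (measure_ne_top _ _)
  rw [Finset.mem_Icc] at hj ⊢
  exact ⟨hj.1, hj.2.trans h⟩

theorem aG_nonneg (n : ℕ) : 0 ≤ aG n := measureReal_nonneg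

theorem gp_quart (h1 : S_gargmax) (h2 : S_back0) : Pool.Agent.H174.GP.S_quart := by
  intro ε hε
  obtain ⟨m0, hm0⟩ := h2 ε hε
  have hlim : Tendsto (fun n : ℕ => (n : ℝ) ^ ε) atTop atTop :=
    (tendsto_rpow_atTop hε).comp tendsto_natCast_atTop_atTop
  obtain ⟨n1, hn1⟩ := eventually_atTop.1 (hlim.eventually_ge_atTop 20)
  refine ⟨max (2 * m0) (max n1 1), fun n hn => ?_⟩
  have hn0 : 2 * m0 ≤ n := (le_max_left _ _).trans hn
  have hn2 : n1 ≤ n := ((le_max_left _ _).trans (le_max_right _ _)).trans hn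
  have hn3 : 1 ≤ n := ((le_max_right _ _).trans (le_max_right _ _)).trans hn
  have hnR : (0 : ℝ) < n := by exact_mod_cast hn3
  have hA := aG_nonneg n
  -- the lower bound of each term of the sum
  have hterm : ∀ m ∈ Finset.Icc ((n + 1) / 2) n,
      (n : ℝ) ^ (-(1 / 2) - ε : ℝ) * (1 / 10) * aG n ^ 2 ≤
      GA.real {z | (∀ j ∈ Finset.Icc 1 (m - 1), 0 ≤ Iw z j) ∧ -1 ≤ S z m ∧ S z m < 0} *
        (1 / 10 * aG (n - m)) := by
    intro m hm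
    rw [Finset.mem_Icc] at hm
    have hm1 : m0 ≤ m := by omega
    have hm2 : 1 ≤ m := by omega
    have hmR : (0 : ℝ) < m := by exact_mod_cast hm2
    have e1 := hm0 m hm1
    have e2 : aG n ≤ aG m := aG_anti hm.2
    have e3 : aG n ≤ aG (n - m) := aG_anti (Nat.sub_le _ _)
    have e4 : (n : ℝ) ^ (-(1 / 2) - ε : ℝ) ≤ (m : ℝ) ^ (-(1 / 2) - ε : ℝ) := by
      refine Real.rpow_le_rpow_of_nonpos hmR ?_ (by linarith)
      exact_mod_cast hm.2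
    have e5 : 0 ≤ (n : ℝ) ^ (-(1 / 2) - ε : ℝ) := (Real.rpow_pos_of_pos hnR _).le
    have e6 : (n : ℝ) ^ (-(1 / 2) - ε : ℝ) * aG n ≤
        GA.real {z | (∀ j ∈ Finset.Icc 1 (m - 1), 0 ≤ Iw z j) ∧ -1 ≤ S z m ∧ S z m < 0} :=
      (mul_le_mul e4 e2 hA (e5.trans e4)).trans e1
    have e7 : (n : ℝ) ^ (-(1 / 2) - ε : ℝ) * aG n * (1 / 10 * aG n) ≤
        GA.real {z | (∀ j ∈ Finset.Icc 1 (m - 1), 0 ≤ Iw z j) ∧ -1 ≤ S z m ∧ S z m < 0} *
          (1 / 10 * aG (n - m)) :=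
      mul_le_mul e6 (by linarith) (by positivity) measureReal_nonneg
    calc (n : ℝ) ^ (-(1 / 2) - ε : ℝ) * (1 / 10) * aG n ^ 2 =
        (n : ℝ) ^ (-(1 / 2) - ε : ℝ) * aG n * (1 / 10 * aG n) := by ring
      _ ≤ _ := e7
  -- the sum
  have hsub : Finset.Icc ((n + 1) / 2) n ⊆ Finset.Icc 1 n := by
    intro m hm
    rw [Finset.mem_Icc] at hm ⊢
    omega
  have hsum : ((Finset.Icc ((n + 1) / 2) n).card : ℝ) *
      ((n : ℝ) ^ (-(1 / 2) - ε : ℝ) * (1 / 10) * aG n ^ 2) ≤ 1 := by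
    rw [← nsmul_eq_mul, ← Finset.sum_const]
    refine (Finset.sum_le_sum hterm).trans ?_
    refine (Finset.sum_le_sum_of_subset_of_nonneg hsub fun m _ _ => ?_).trans (h1 n hn3)
    exact mul_nonneg measureReal_nonneg (mul_nonneg (by norm_num) (aG_nonneg _))
  have hcard : (n : ℝ) / 2 ≤ ((Finset.Icc ((n + 1) / 2) n).card : ℝ) := by
    rw [Nat.card_Icc]
    have h3 : n ≤ 2 * (n + 1 - (n + 1) / 2) := by omega
    have h4 : (n : ℝ) ≤ 2 * ((n + 1 - (n + 1) / 2 : ℕ) : ℝ) := by exact_mod_cast h3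
    linarith
  have e5 : 0 < (n : ℝ) ^ (-(1 / 2) - ε : ℝ) := Real.rpow_pos_of_pos hnR _
  have hmain : (n : ℝ) / 2 * ((n : ℝ) ^ (-(1 / 2) - ε : ℝ) * (1 / 10) * aG n ^ 2) ≤ 1 :=
    (mul_le_mul_of_nonneg_right hcard (by positivity)).trans hsum
  have hpow : (n : ℝ) * (n : ℝ) ^ (-(1 / 2) - ε : ℝ) = (n : ℝ) ^ (1 / 2 - ε : ℝ) := by
    nth_rewrite 1 [← Real.rpow_one (n : ℝ)]
    rw [← Real.rpow_add hnR]
    congr 1
    ring
  have hmain2 : (n : ℝ) ^ (1 / 2 - ε : ℝ) * aG n ^ 2 ≤ 20 := by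
    rw [← hpow]
    nlinarith
  -- conclusion
  have h20 : (20 : ℝ) ≤ (n : ℝ) ^ ε := hn1 n hn2
  have hsq : aG n ^ 2 ≤ ((n : ℝ) ^ (-(1 / 4) + ε : ℝ)) ^ 2 := by
    have h5 : 0 < (n : ℝ) ^ (1 / 2 - ε : ℝ) := Real.rpow_pos_of_pos hnR _
    have h6 : (n : ℝ) ^ (1 / 2 - ε : ℝ) * aG n ^ 2 ≤
        (n : ℝ) ^ (1 / 2 - ε : ℝ) * ((n : ℝ) ^ (-(1 / 4) + ε : ℝ)) ^ 2 := by
      have h7 : (n : ℝ) ^ (1 / 2 - ε : ℝ) * ((n : ℝ) ^ (-(1 / 4) + ε : ℝ)) ^ 2 =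
          (n : ℝ) ^ ε := by
        rw [← Real.rpow_natCast, ← Real.rpow_mul hnR.le, ← Real.rpow_add hnR]
        congr 1
        push_cast
        ring
      rw [h7]
      exact hmain2.trans h20
    exact le_of_mul_le_mul_left h6 h5
  exact le_of_sq_le_sq hsq (Real.rpow_pos_of_pos hnR _).le

end Pool.Agent.H972.GP174.quart
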